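import Pool.Agent.N389.AS.Asym
import Pool.Agent.Results.MP_db4732_co.BlockSymmetricGrowth

/-!
# Corner-free sets which are decided by an additive statistic

Let `G` be a finite abelian group, for instance `F_2^d`. We view the points `(x, y)` of `(G^n)^2` as
words of length `n` over the alphabet `G^2`. An additive statistic is a function
`∑ i, f i (x i) (y i)` with values in an abelian group, where the `f i` are arbitrary. We determine the
exponential growth rate of the largest corner-free subsets of `(G^n)^2` which are decided by the value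
of an additive statistic with few values.

Proof. If `A` is such a set and large then there are many coordinates `i`, and for each of them a set
of `M + 1` elements of `G^2`, such that the projection of `A` contains the product of these sets. By
the improved sunflower lemma (in the form of robust sunflowers) there are many disjoint nonempty sets
of these coordinates on which the sums of the `f i` agree, simultaneously for all letters. On these
sets one places the corners of a balanced weight. The result is a nontrivial corner whose three points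
have the same value of the statistic, and the first of them is in `A`.
-/

set_option autoImplicit false
set_option linter.unusedSectionVars false

namespace Pool.Agent.Results.MP_db4732_co.AdditiveStatistics

open Finset

variable (G : Type) [AddCommGroup G] [Fintype G] [DecidableEq G]

/-- `A ⊆ (G^n)^2` contains no nontrivial corner `(x, y), (x, y + z), (x + z, y)`, `z ≠ 0`. -/
def CornerFree (n : ℕ) (A : Finset ((Fin n → G) × (Fin n → G))) : Prop :=
  ∀ x y z : Fin n → G, (x, y) ∈ A → (x, y + z) ∈ A → (x + z, y) ∈ A → z = 0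

/-- `A` is decided by an additive statistic with at most `V` values: there are an abelian group `H`,
functions `f i : G → G → H` such that `∑ i, f i (x i) (y i)` has at most `V` values, and a set `D` of
values such that `A` consists of the points `(x, y)` whose value is in `D`. -/
def Decided (V n : ℕ) (A : Finset ((Fin n → G) × (Fin n → G))) : Prop :=
  ∃ (H : Type) (_ : AddCommGroup H) (f : Fin n → G → G → H) (D : Set H),
    (Set.range fun p : (Fin n → G) × (Fin n → G) => ∑ i, f i (p.1 i) (p.2 i)).ncard ≤ V ∧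
    ∀ x y, (x, y) ∈ A ↔ ∑ i, f i (x i) (y i) ∈ D

/-- `S ⊆ G^2` carries a balanced weight: a function `w ≠ 0` with values in `ℕ` on the nontrivial
corners `(x, y), (x, y + z), (x + z, y)`, `z ≠ 0`, with all three points in `S`, such that for every
`s` the sum of `w` over the corners with first point `s`, the sum over those with second point `s` and
the sum over those with third point `s` are equal. -/
def Balanced (S : Finset (G × G)) : Prop :=
  ∃ w : (G × G) × G → ℕ, (∃ q, w q ≠ 0) ∧
    (∀ q, w q ≠ 0 → q.2 ≠ 0 ∧ q.1 ∈ S ∧ (q.1.1, q.1.2 + q.2) ∈ S ∧ (q.1.1 + q.2, q.1.2) ∈ S) ∧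
    ∀ s, ((∑ q, if (q.1.1, q.1.2 + q.2) = s then w q else 0) = ∑ q, if q.1 = s then w q else 0) ∧
      (∑ q, if (q.1.1 + q.2, q.1.2) = s then w q else 0) = ∑ q, if q.1 = s then w q else 0

/-- The largest size of a subset of `G^2` that carries no balanced weight. -/
noncomputable def M : ℕ :=
  sSup {m : ℕ | ∃ S : Finset (G × G), ¬ Balanced G S ∧ S.card = m}

/-- The power-saving bound of the problem. -/
def PowerSaving : Prop :=
  ∃ C c : ℝ, 0 < C ∧ 0 < c ∧ ∀ n : ℕ, 1 ≤ n →
    ∀ A : Finset ((Fin n → ZMod 2) × (Fin n → ZMod 2)), CornerFree (ZMod 2) n A →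
      (A.card : ℝ) ≤ C * 4 ^ ((1 - c) * (n : ℝ))

/-- the three points of a corner -/
def F : Fin 3 → (G × G) × G → G × G :=
  ![fun q => q.1, fun q => (q.1.1, q.1.2 + q.2), fun q => (q.1.1 + q.2, q.1.2)]

/-- nontrivial corners -/
def nt (q : (G × G) × G) : Prop := q.2 ≠ 0

lemma balanced_iff (S : Finset (G × G)) :
    Balanced G S ↔ TH197.Sym.Balanced (F G) (nt G) S := by
  constructor
  · rintro ⟨w, h1, h2, h3⟩
    refine ⟨w, h1, fun q hq => ⟨(h2 q hq).1, ?_⟩, ?_⟩
    · intro i
      fin_cases i
      · exact (h2 q hq).2.1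
      · exact (h2 q hq).2.2.1
      · exact (h2 q hq).2.2.2
    · have key : ∀ (i : Fin 3) (s : G × G), (∑ q, if F G i q = s then w q else 0) =
          ∑ q, if q.1 = s then w q else 0 := by
        intro i s
        fin_cases i
        · rfl
        · exact (h3 s).1
        · exact (h3 s).2
      intro i j s
      rw [key i s, key j s]
  · rintro ⟨w, h1, h2, h3⟩
    refine ⟨w, h1, fun q hq => ⟨(h2 q hq).1, (h2 q hq).2 0, (h2 q hq).2 1, (h2 q hq).2 2⟩, ?_⟩
    intro s
    exact ⟨h3 1 0 s, h3 2 0 s⟩

/-- pairs of words and words of pairs -/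
def wd (n : ℕ) : (Fin n → G) × (Fin n → G) ≃ (Fin n → G × G) where
  toFun p c := (p.1 c, p.2 c)
  invFun u := (fun c => (u c).1, fun c => (u c).2)
  left_inv _ := rfl
  right_inv _ := rfl

variable {G}

lemma mem_map_wd {n : ℕ} {A : Finset ((Fin n → G) × (Fin n → G))} {u : Fin n → G × G} :
    u ∈ A.map (wd G n).toEmbedding ↔ ((fun c => (u c).1), fun c => (u c).2) ∈ A := by
  rw [Finset.mem_map_equiv]
  rfl

lemma free_map {n : ℕ} {A : Finset ((Fin n → G) × (Fin n → G))} (hA : CornerFree G n A) :
    TH197.Sym.Free (F G) (nt G) (A.map (wd G n).toEmbedding) := by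
  intro q hq c hc
  have h0 := mem_map_wd.1 (hq 0)
  have h1 := mem_map_wd.1 (hq 1)
  have h2 := mem_map_wd.1 (hq 2)
  have h3 := hA (fun c => (q c).1.1) (fun c => (q c).1.2) (fun c => (q c).2) h0 h1 h2
  exact hc (congrFun h3 c)

lemma bfree_of_free {n : ℕ} {A : Finset (Fin n → G × G)}
    (hA : TH197.Sym.Free (F G) (nt G) A) :
    CornerFree G n (A.map (wd G n).symm.toEmbedding) := by
  intro x y z h0 h1 h2
  rw [Finset.mem_map_equiv] at h0 h1 h2
  have h3 := hA (fun c => ((x c, y c), z c)) (by
    intro i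
    fin_cases i
    · exact h0
    · exact h1
    · exact h2)
  funext c
  by_contra hc
  exact h3 c hc

lemma dec_map {V n : ℕ} {A : Finset ((Fin n → G) × (Fin n → G))} (hA : Decided G V n A) :
    N389.AS.Dec V (A.map (wd G n).toEmbedding) := by
  obtain ⟨H, iH, f, D, h1, h2⟩ := hA
  refine ⟨H, iH, fun i p => f i p.1 p.2, D, ?_, ?_⟩
  · refine le_trans (le_of_eq ?_) h1
    congr 1
    ext g
    constructor
    · rintro ⟨u, hu⟩
      exact ⟨(fun c => (u c).1, fun c => (u c).2), hu⟩
    · rintro ⟨p, hp⟩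
      exact ⟨fun c => (p.1 c, p.2 c), hp⟩
  · intro u
    rw [mem_map_wd, h2]

lemma decided_of {V n : ℕ} {A : Finset (Fin n → G × G)} (hA : N389.AS.Dec V A) :
    Decided G V n (A.map (wd G n).symm.toEmbedding) := by
  obtain ⟨H, iH, f, D, h1, h2⟩ := hA
  refine ⟨H, iH, fun i a b => f i (a, b), D, ?_, ?_⟩
  · refine le_trans (le_of_eq ?_) h1
    congr 1
    ext g
    constructor
    · rintro ⟨p, hp⟩
      exact ⟨fun c => (p.1 c, p.2 c), hp⟩
    · rintro ⟨u, hu⟩
      exact ⟨(fun c => (u c).1, fun c => (u c).2), hu⟩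
  · intro x y
    rw [Finset.mem_map_equiv]
    exact h2 _

lemma M_bdd : BddAbove {m : ℕ | ∃ S : Finset (G × G), ¬ Balanced G S ∧ S.card = m} := by
  refine ⟨Fintype.card (G × G), ?_⟩
  rintro m ⟨B, _, rfl⟩
  exact Finset.card_le_univ B

lemma le_M {S : Finset (G × G)} (hS : ¬ Balanced G S) : S.card ≤ M G :=
  le_csSup M_bdd ⟨S, hS, rfl⟩

lemma single_unbalanced (p : G × G) : ¬ Balanced G {p} := by
  rintro ⟨w, ⟨q, hq⟩, h, _⟩
  obtain ⟨h1, h2, h3, _⟩ := h q hq
  rw [mem_singleton] at h2 h3
  rw [← h2, Prod.ext_iff] at h3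
  exact h1 (by simpa using h3.2)

lemma exists_M : ∃ S : Finset (G × G), ¬ Balanced G S ∧ S.card = M G :=
  Nat.sSup_mem (s := {m : ℕ | ∃ S : Finset (G × G), ¬ Balanced G S ∧ S.card = m})
    ⟨1, {(0, 0)}, single_unbalanced _, card_singleton _⟩ M_bdd

lemma one_le_M : 1 ≤ M G := by
  have := le_M (single_unbalanced (0 : G × G))
  rwa [card_singleton] at this

lemma hτ (i : Fin 3) (v : G × G) : F G i (v, 0) = v := by
  fin_cases i
  · rfl
  · show (v.1, v.2 + 0) = v
    rw [add_zero]
  · show (v.1 + 0, v.2) = v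
    rw [add_zero]

lemma htriv (q : (G × G) × G) (hq : ¬ nt G q) (i j : Fin 3) : F G i q = F G j q := by
  obtain ⟨v, z⟩ := q
  have hz : z = 0 := by
    by_contra h
    exact hq h
  subst hz
  rw [hτ, hτ]

lemma hmax (S : Finset (G × G)) (hS : ¬ TH197.Sym.Balanced (F G) (nt G) S) : S.card ≤ M G :=
  le_M fun h => hS ((balanced_iff G S).1 h)

lemma M_pow (d : ℕ) : M (Fin d → ZMod 2) = MP_db4732_co.BlockSymmetricGrowth.M d := by
  unfold M MP_db4732_co.BlockSymmetricGrowth.M
  congr 1

lemma balanced_congr {H : Type} [AddCommGroup H] [Fintype H] [DecidableEq H] (e : G ≃+ H)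
    (S : Finset (G × G))
    (h : Balanced H (S.map (e.toEquiv.prodCongr e.toEquiv).toEmbedding)) : Balanced G S := by
  obtain ⟨w, ⟨q₀, hq₀⟩, h2, h3⟩ := h
  set E : (G × G) × G ≃ (H × H) × H :=
    (e.toEquiv.prodCongr e.toEquiv).prodCongr e.toEquiv with hE
  have hm : ∀ p : G × G, (e p.1, e p.2) ∈ S.map (e.toEquiv.prodCongr e.toEquiv).toEmbedding ↔
      p ∈ S := by
    intro p
    have : (e p.1, e p.2) = (e.toEquiv.prodCongr e.toEquiv).toEmbedding p := rfl
    rw [this, mem_map']
  refine ⟨fun q => w (E q), ⟨E.symm q₀, by simpa using hq₀⟩, ?_, ?_⟩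
  · intro q hq
    obtain ⟨a1, a2, a3, a4⟩ := h2 (E q) hq
    refine ⟨fun h => a1 ?_, (hm _).1 a2, (hm _).1 ?_, (hm _).1 ?_⟩
    · show e q.2 = 0
      rw [h, map_zero]
    · have : ((e q.1.1, e (q.1.2 + q.2)) : H × H) = ((E q).1.1, (E q).1.2 + (E q).2) := by
        rw [map_add]
        rfl
      show ((e q.1.1, e (q.1.2 + q.2)) : H × H) ∈ _
      rw [this]
      exact a3
    · have : ((e (q.1.1 + q.2), e q.1.2) : H × H) = ((E q).1.1 + (E q).2, (E q).1.2) := by
        rw [map_add]
        rfl
      show ((e (q.1.1 + q.2), e q.1.2) : H × H) ∈ _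
      rw [this]
      exact a4
  · intro s
    obtain ⟨b1, b2⟩ := h3 (e s.1, e s.2)
    have c0 : ∀ q : (G × G) × G, ((E q).1 = (e s.1, e s.2)) ↔ q.1 = s := by
      intro q
      constructor
      · intro h
        have h1 := congrArg Prod.fst h
        have h2 := congrArg Prod.snd h
        exact Prod.ext (e.injective h1) (e.injective h2)
      · rintro rfl
        rfl
    have c1 : ∀ q : (G × G) × G, (((E q).1.1, (E q).1.2 + (E q).2) = (e s.1, e s.2)) ↔
        (q.1.1, q.1.2 + q.2) = s := by
      intro q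
      have : ((E q).1.1, (E q).1.2 + (E q).2) = (e q.1.1, e (q.1.2 + q.2)) := by
        rw [map_add]
        rfl
      rw [this]
      constructor
      · intro h
        have h1 := congrArg Prod.fst h
        have h2 := congrArg Prod.snd h
        exact Prod.ext (e.injective h1) (e.injective h2)
      · rintro rfl
        rfl
    have c2 : ∀ q : (G × G) × G, (((E q).1.1 + (E q).2, (E q).1.2) = (e s.1, e s.2)) ↔
        (q.1.1 + q.2, q.1.2) = s := by
      intro q
      have : ((E q).1.1 + (E q).2, (E q).1.2) = (e (q.1.1 + q.2), e q.1.2) := by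
        rw [map_add]
        rfl
      rw [this]
      constructor
      · intro h
        have h1 := congrArg Prod.fst h
        have h2 := congrArg Prod.snd h
        exact Prod.ext (e.injective h1) (e.injective h2)
      · rintro rfl
        rfl
    rw [← Equiv.sum_comp E, ← Equiv.sum_comp E] at b1 b2
    simp only [c0, c1] at b1
    simp only [c0, c2] at b2
    exact ⟨b1, b2⟩

lemma M_le_congr {H : Type} [AddCommGroup H] [Fintype H] [DecidableEq H] (e : G ≃+ H) :
    M G ≤ M H := by
  obtain ⟨S, hS, hc⟩ := exists_M (G := G)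
  rw [← hc, ← card_map (e.toEquiv.prodCongr e.toEquiv).toEmbedding]
  exact le_M fun h => hS (balanced_congr e S h)

/-- the whole of `G^2` carries a balanced weight -/
lemma univ_balanced [Nontrivial G] : Balanced G univ := by
  obtain ⟨g, hg⟩ := exists_ne (0 : G)
  refine ⟨fun q => if q.2 ≠ 0 then 1 else 0, ⟨((0, 0), g), by simp [hg]⟩, ?_, ?_⟩
  · intro q hq
    refine ⟨fun h => hq (by simp [h]), mem_univ _, mem_univ _, mem_univ _⟩
  · have key : ∀ (e : G → G × G ≃ G × G) (s : G × G),
        (∑ q : (G × G) × G, if e q.2 q.1 = s then (if q.2 ≠ 0 then 1 else 0) else 0) =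
        ∑ z : G, if z ≠ 0 then 1 else 0 := by
      intro e s
      rw [Fintype.sum_prod_type_right]
      apply sum_congr rfl
      intro z _
      rw [sum_eq_single ((e z).symm s)]
      · simp
      · intro p _ hp
        rw [if_neg]
        intro h
        exact hp (by rw [← h]; simp)
      · intro h
        exact absurd (mem_univ _) h
    intro s
    have k0 := key (fun _ => Equiv.refl _) s
    have k1 := key (fun z => (Equiv.refl G).prodCongr (Equiv.addRight z)) s
    have k2 := key (fun z => (Equiv.addRight z).prodCongr (Equiv.refl G)) s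
    exact ⟨k1.trans k0.symm, k2.trans k0.symm⟩

lemma M_lt [Nontrivial G] : M G < Fintype.card G ^ 2 := by
  obtain ⟨S, hS, hc⟩ := exists_M (G := G)
  rw [← hc, pow_two, ← Fintype.card_prod]
  by_contra h
  push Not at h
  have h1 : S = univ := by
    rw [← card_eq_iff_eq_univ]
    exact le_antisymm (card_le_univ S) h
  rw [h1] at hS
  exact hS univ_balanced

/-- Let `G` be a nontrivial finite abelian group and let `M = M G` be the largest size of a subset of
`G^2` without a balanced weight. We consider the corner-free sets `A ⊆ (G^n)^2` which are decided by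
an additive statistic with at most `V` values.

1. There is a constant `C` with `|A| ≤ M^n exp (C (1 + log V) log (2 + log V) log (n + 1))`.
2. For every `ε > 0` there are `δ > 0` and `n₀` such that `|A| ≤ (M + ε)^n` if
   `V ≤ exp (δ n / log n)` and `n ≥ n₀`.
3. For every `n` there is such a set with `V = (n + 1)^{|G|^2}` and
   `|A| ≥ M^n / (n + 1)^{|G|^2}`.
4. `M < |G|^2`, and `3^d ≤ M ≤ (3/4) 4^d` if `G = F_2^d` and `d ≥ 1`; in particular `M = 3` if
   `G = F_2`. -/
theorem result :
    (∀ (G : Type) [AddCommGroup G] [Fintype G] [DecidableEq G] [Nontrivial G],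
      (∃ C : ℝ, 0 < C ∧ ∀ (n V : ℕ) (A : Finset ((Fin n → G) × (Fin n → G))), 1 ≤ n →
        CornerFree G n A → Decided G V n A →
        (A.card : ℝ) ≤ (M G : ℝ) ^ n *
          Real.exp (C * (1 + Real.log V) * Real.log (2 + Real.log V) * Real.log (n + 1))) ∧
      (∀ ε : ℝ, 0 < ε → ∃ δ : ℝ, 0 < δ ∧ ∃ n₀ : ℕ, ∀ (n V : ℕ)
        (A : Finset ((Fin n → G) × (Fin n → G))), n₀ ≤ n → CornerFree G n A → Decided G V n A →
        (V : ℝ) ≤ Real.exp (δ * n / Real.log n) → (A.card : ℝ) ≤ (M G + ε) ^ n) ∧
      (∀ n : ℕ, ∃ A : Finset ((Fin n → G) × (Fin n → G)), CornerFree G n A ∧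
        Decided G ((n + 1) ^ Fintype.card G ^ 2) n A ∧
        M G ^ n ≤ (n + 1) ^ Fintype.card G ^ 2 * A.card) ∧
      M G < Fintype.card G ^ 2) ∧
    (∀ d : ℕ, 1 ≤ d → 3 ^ d ≤ M (Fin d → ZMod 2) ∧ 4 * M (Fin d → ZMod 2) ≤ 3 * 4 ^ d) ∧
    M (ZMod 2) = 3 := by
  have hd : ∀ d : ℕ, 1 ≤ d → 3 ^ d ≤ M (Fin d → ZMod 2) ∧ 4 * M (Fin d → ZMod 2) ≤ 3 * 4 ^ d := by
    intro d hd
    rw [M_pow]
    exact ⟨MP_db4732_co.BlockSymmetricGrowth.M_lower d,
      MP_db4732_co.BlockSymmetricGrowth.M_upper d hd⟩
  refine ⟨?_, hd, ?_⟩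
  · intro G _ _ _ _
    have hX : Fintype.card (G × G) = Fintype.card G ^ 2 := by rw [Fintype.card_prod, pow_two]
    refine ⟨?_, ?_, ?_, M_lt⟩
    · obtain ⟨C, hC, H⟩ := N389.AS.quasi (F := F G) (nt := nt G) 0 (fun v => (v, 0)) hτ (M G)
        one_le_M hmax
      refine ⟨C, hC, fun n V A hn hA hD => ?_⟩
      have := H n V _ hn (free_map hA) (dec_map hD)
      rwa [card_map] at this
    · intro ε hε
      obtain ⟨δ, hδ, n₀, H⟩ := N389.AS.expo (F := F G) (nt := nt G) 0 (fun v => (v, 0)) hτ (M G)
        hmax hε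
      refine ⟨δ, hδ, n₀, fun n V A hn hA hD hV => ?_⟩
      have := H n V _ hn (free_map hA) (dec_map hD) hV
      rwa [card_map] at this
    · intro n
      obtain ⟨S, hS, hc⟩ := exists_M (G := G)
      obtain ⟨A, hA, hSy, hcard⟩ := TH197.Sym.lower (F := F G) (nt := nt G) htriv 0 S
        (fun hb => hS ((balanced_iff G S).2 hb)) n
      rw [hc, hX] at hcard
      refine ⟨A.map (wd G n).symm.toEmbedding, bfree_of_free hA, ?_, by rwa [card_map]⟩
      have h := N389.AS.dec_of_symm hSy
      rw [hX] at h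
      exact decided_of h
  · -- transfer from `Fin 1 → ZMod 2`
    have e : (Fin 1 → ZMod 2) ≃+ ZMod 2 :=
      { (Equiv.funUnique (Fin 1) (ZMod 2)) with map_add' := fun _ _ => rfl }
    have key : M (ZMod 2) = M (Fin 1 → ZMod 2) :=
      le_antisymm (M_le_congr e.symm) (M_le_congr e)
    have := hd 1 le_rfl
    rw [← key] at this
    omega

end Pool.Agent.Results.MP_db4732_co.AdditiveStatistics
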