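import Pool.Agent.N68.Corner.Cover

/-!
# Corner-free sets in `((ℤ/m)^n)²` with `((√3/2) m² - o(1))^n` elements

For every `m ≥ 2`, every `c > 2/√3` and all large `n` the group `((ℤ/m)^n)²` is a union of at most
`c^n` corner-free sets, one of which has at least `(m²/c)^n` elements.  For `m = 2` this gives
corner-free sets with `(2√3 - o(1))^n = 3.464...^n` elements, so a power-saving bound with saving
`c` can hold only if `c ≤ 1 - log_4 (2√3) < 0.1038` (`saving_two`).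

Proof: integer lifts.  Take pairs `(u, v)` of integer vectors with `u`, `v`, `u + v` of the same
Euclidean length; a corner among such pairs is trivial, as `|z|²` is a signed sum of these lengths.
Discrete Gaussian weights count these pairs and the integer vectors in a residue class modulo `m`;
a random linear hash makes the reduction modulo `m` injective on the vectors that are used.
-/

namespace Pool.Agent.Results.MP_db4732_co.GaussianLifts

open Filter Topology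

/-- `A ⊆ G × G` contains no nontrivial corner `(x,y), (x,y+z), (x+z,y)`, `z ≠ 0`. -/
def NoCorner {G : Type*} [AddCommGroup G] (A : Finset (G × G)) : Prop :=
  ∀ x y z : G, z ≠ 0 → ¬ ((x, y) ∈ A ∧ (x, y + z) ∈ A ∧ (x + z, y) ∈ A)

lemma noCorner_of {G : Type*} [AddCommGroup G] {A : Finset (G × G)}
    (h : Pool.Agent.N68.Corner.CornerFree A) : NoCorner A :=
  fun x y z hz hh => hz (h x y z hh.1 hh.2.1 hh.2.2)

lemma large (m : ℕ) [NeZero m] (c : ℝ) (h0 : 0 ≤ c) (hc : c < Real.sqrt 3 / 2 * (m : ℝ) ^ 2) :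
    ∃ n0 : ℕ, ∀ n, n0 ≤ n → ∃ A : Finset ((Fin n → ZMod m) × (Fin n → ZMod m)),
      NoCorner A ∧ c ^ n ≤ A.card := by
  obtain ⟨n0, h⟩ := Pool.Agent.N68.Corner.exists_cornerFree m c h0 hc
  refine ⟨n0, fun n hn => ?_⟩
  obtain ⟨A, hA, hAc⟩ := h n hn
  exact ⟨A, noCorner_of hA, hAc⟩

lemma cover (m : ℕ) [NeZero m] (c : ℝ) (hc : 2 / Real.sqrt 3 < c) :
    ∃ n0 : ℕ, ∀ n, n0 ≤ n →
      ∃ 𝒜 : Finset (Finset ((Fin n → ZMod m) × (Fin n → ZMod m))),
        (𝒜.card : ℝ) ≤ c ^ n ∧ (∀ A ∈ 𝒜, NoCorner A) ∧ ∀ p, ∃ A ∈ 𝒜, p ∈ A := by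
  obtain ⟨n0, h⟩ := Pool.Agent.N68.Corner.exists_cover m c hc
  refine ⟨n0, fun n hn => ?_⟩
  obtain ⟨𝒜, h1, h2, h3⟩ := h n hn
  exact ⟨𝒜, h1, fun A hA => noCorner_of (h2 A hA), h3⟩

/-- the consequence for power-saving bounds -/
lemma saving (m : ℕ) (hm : 2 ≤ m) (C c : ℝ)
    (h : ∀ n : ℕ, 1 ≤ n → ∀ A : Finset ((Fin n → ZMod m) × (Fin n → ZMod m)), NoCorner A →
      (A.card : ℝ) ≤ C * ((m : ℝ) ^ 2) ^ ((1 - c) * n)) :
    c ≤ Real.log (2 / Real.sqrt 3) / (2 * Real.log m) := by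
  have : NeZero m := ⟨by omega⟩
  have hm2 : (2 : ℝ) ≤ m := by exact_mod_cast hm
  have hm0 : (0 : ℝ) < m := by linarith
  have hlog : 0 < Real.log m := Real.log_pos (by linarith)
  have hs : 0 < Real.sqrt 3 := by positivity
  by_contra hcon
  push Not at hcon
  rw [div_lt_iff₀ (by positivity)] at hcon
  set B : ℝ := ((m : ℝ) ^ 2) ^ (1 - c) with hB
  have hB0 : 0 < B := by positivity
  have hBlt : B < Real.sqrt 3 / 2 * (m : ℝ) ^ 2 := by
    rw [← Real.log_lt_log_iff hB0 (by positivity), hB, Real.log_rpow (by positivity),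
      Real.log_mul (by positivity) (by positivity), Real.log_pow]
    have : Real.log (Real.sqrt 3 / 2) = - Real.log (2 / Real.sqrt 3) := by
      rw [← Real.log_inv, inv_div]
    rw [this]
    push_cast
    linarith
  obtain ⟨a, ha1, ha2⟩ := exists_between hBlt
  obtain ⟨n0, hn0⟩ := large m a (by linarith) ha2
  have hlim := tendsto_pow_atTop_atTop_of_one_lt (show 1 < a / B by rwa [one_lt_div hB0])
  obtain ⟨n1, hn1⟩ := eventually_atTop.1 (hlim.eventually (eventually_gt_atTop C))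
  set n := max (max n0 n1) 1 with hn
  obtain ⟨A, hA, hAc⟩ := hn0 n ((le_max_left _ _).trans (le_max_left _ _))
  have h1 := h n (le_max_right _ _) A hA
  have h2 := hn1 n ((le_max_right _ _).trans (le_max_left _ _))
  rw [div_pow, lt_div_iff₀ (by positivity)] at h2
  have h3 : ((m : ℝ) ^ 2) ^ ((1 - c) * (n : ℝ)) = B ^ n := by
    rw [hB, Real.rpow_mul (by positivity), Real.rpow_natCast]
  rw [h3] at h1
  linarith

/-- `log (2/√3) / (2 log 2) < 0.1038` -/
lemma numeric : Real.log (2 / Real.sqrt 3) / (2 * Real.log 2) < 0.1038 := by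
  have hlog : 0 < Real.log 2 := Real.log_pos (by norm_num)
  have h1 : 2 * Real.log (2 / Real.sqrt 3) = Real.log (4 / 3) := by
    have : (2 : ℝ) * Real.log (2 / Real.sqrt 3) = Real.log ((2 / Real.sqrt 3) ^ 2) := by
      rw [Real.log_pow]
      norm_num
    rw [this, div_pow, Real.sq_sqrt (by norm_num)]
    norm_num
  have h2 : 53 * Real.log (4 / 3) < 22 * Real.log 2 := by
    have e1 : 53 * Real.log (4 / 3) = Real.log ((4 / 3) ^ 53) := by
      rw [Real.log_pow]; norm_num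
    have e2 : 22 * Real.log 2 = Real.log (2 ^ 22) := by
      rw [Real.log_pow]; norm_num
    rw [e1, e2]
    apply Real.log_lt_log (by positivity)
    rw [div_pow, div_lt_iff₀ (by positivity)]
    norm_num
  rw [div_lt_iff₀ (by positivity)]
  linarith

/-- The consequence for `m = 2`: if `|A| ≤ C 4^{(1-c)n}` for all `n ≥ 1` and all corner-free
`A ⊆ (F_2^n)²`, then `c < 0.1038`. -/
theorem saving_two (C c : ℝ)
    (h : ∀ n : ℕ, 1 ≤ n → ∀ A : Finset ((Fin n → ZMod 2) × (Fin n → ZMod 2)), NoCorner A →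
      (A.card : ℝ) ≤ C * (4 : ℝ) ^ ((1 - c) * n)) : c < 0.1038 := by
  have h1 := saving 2 le_rfl C c (by
    intro n hn A hA
    have := h n hn A hA
    have e : (((2 : ℕ) : ℝ) ^ 2) = 4 := by norm_num
    rwa [e])
  push_cast at h1
  exact h1.trans_lt numeric

/-- **Theorem.** Let `m ≥ 2` and `c > 2/√3`.  For all large `n` the group `((ℤ/m)^n)²` is a union
of at most `c^n` corner-free sets, one of which has at least `(m²/c)^n` elements. -/
theorem result (m : ℕ) (hm : 2 ≤ m) (c : ℝ) (hc : 2 / Real.sqrt 3 < c) :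
    ∃ n0 : ℕ, ∀ n : ℕ, n0 ≤ n →
      ∃ 𝒜 : Finset (Finset ((Fin n → ZMod m) × (Fin n → ZMod m))),
        (∀ A ∈ 𝒜, NoCorner A) ∧ (𝒜.card : ℝ) ≤ c ^ n ∧ (∀ p, ∃ A ∈ 𝒜, p ∈ A) ∧
          ∃ A ∈ 𝒜, ((m : ℝ) ^ 2 / c) ^ n ≤ A.card := by
  classical
  have : NeZero m := ⟨by omega⟩
  have hm0 : (0 : ℝ) < m := by exact_mod_cast (show 0 < m by omega)
  have hc0 : 0 < c := lt_trans (by positivity) hc
  obtain ⟨n0, h⟩ := cover m c hc
  refine ⟨n0, fun n hn => ?_⟩
  obtain ⟨𝒜, h1, h2, h3⟩ := h n hn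
  refine ⟨𝒜, h2, h1, h3, ?_⟩
  by_contra hcon
  push Not at hcon
  have hne : 𝒜.Nonempty := by
    obtain ⟨A, hA, _⟩ := h3 0
    exact ⟨A, hA⟩
  have h4 : (Finset.univ : Finset ((Fin n → ZMod m) × (Fin n → ZMod m))) ⊆ 𝒜.biUnion id := by
    intro p _
    obtain ⟨A, hA, hp⟩ := h3 p
    exact Finset.mem_biUnion.2 ⟨A, hA, hp⟩
  have h5 := (Finset.card_le_card h4).trans Finset.card_biUnion_le
  have h6 : (Fintype.card ((Fin n → ZMod m) × (Fin n → ZMod m)) : ℝ) = ((m : ℝ) ^ 2) ^ n := by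
    rw [Fintype.card_prod, Fintype.card_fun, ZMod.card, Fintype.card_fin]
    push_cast
    ring
  have h7 : (Fintype.card ((Fin n → ZMod m) × (Fin n → ZMod m)) : ℝ) ≤
      ∑ A ∈ 𝒜, (A.card : ℝ) := by
    rw [← Finset.card_univ]
    exact_mod_cast h5
  have h8 : ∑ A ∈ 𝒜, (A.card : ℝ) < ∑ _A ∈ 𝒜, ((m : ℝ) ^ 2 / c) ^ n :=
    Finset.sum_lt_sum_of_nonempty hne hcon
  rw [Finset.sum_const, nsmul_eq_mul] at h8
  have h9 : (𝒜.card : ℝ) * ((m : ℝ) ^ 2 / c) ^ n ≤ c ^ n * ((m : ℝ) ^ 2 / c) ^ n :=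
    mul_le_mul_of_nonneg_right h1 (by positivity)
  have h10 : c ^ n * ((m : ℝ) ^ 2 / c) ^ n = ((m : ℝ) ^ 2) ^ n := by
    rw [← mul_pow, mul_div_cancel₀ _ hc0.ne']
  rw [h6] at h7
  rw [h10] at h9
  linarith

end Pool.Agent.Results.MP_db4732_co.GaussianLifts
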