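import Pool.Agent.N389.QF.Qual

set_option autoImplicit false

/-!
# Corner-free sets inside sets determined by polynomials of degree two

Corner-free sets have small relative density inside every set `F ⊆ (F_2^n)^2` which is determined by
the values of at most `√n / 20` polynomials of degree at most two, and inside all disjoint unions of
such sets (with different polynomials), for instance in the sets decided by decision trees of depth
at most `√n / 20` which query arbitrary polynomials of degree two. Such sets can be as sparse as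
`2 ^ (- √n / 20)`.
-/

namespace Pool.Agent.Results.MP_db4732_co.QuadraticFactors

open Finset

/-- `A ⊆ (F_2^n)^2` contains no nontrivial corner `(x, y), (x, y + z), (x + z, y)`, `z ≠ 0`. -/
def CornerFree {n : ℕ} (A : Finset ((Fin n → ZMod 2) × (Fin n → ZMod 2))) : Prop :=
  ∀ x y z : Fin n → ZMod 2, (x, y) ∈ A → (x, y + z) ∈ A → (x + z, y) ∈ A → z = 0

/-- `f` is a polynomial of degree at most two in the `2 n` coordinates of `(x, y)`. -/
def DegTwo {n : ℕ} (f : (Fin n → ZMod 2) × (Fin n → ZMod 2) → ZMod 2) : Prop :=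
  ∃ (c : ZMod 2) (a : Fin n ⊕ Fin n → ZMod 2) (b : Fin n ⊕ Fin n → Fin n ⊕ Fin n → ZMod 2),
    ∀ q, f q = c + ∑ i, a i * Sum.elim q.1 q.2 i +
      ∑ i, ∑ j, b i j * (Sum.elim q.1 q.2 i * Sum.elim q.1 q.2 j)

/-- `F` is determined by `T` polynomials of degree at most two: whether `q` is in `F` depends only on
their values at `q`. -/
def Determined (T : ℕ) {n : ℕ} (F : Finset ((Fin n → ZMod 2) × (Fin n → ZMod 2))) : Prop :=
  ∃ f : Fin T → (Fin n → ZMod 2) × (Fin n → ZMod 2) → ZMod 2, (∀ i, DegTwo (f i)) ∧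
    ∀ q q', (∀ i, f i q = f i q') → (q ∈ F ↔ q' ∈ F)

/-- **Theorem.**
(1) Let `(m + 6 T + 1) (8 T + 1) ≤ n`, let `r` be such that corner-free sets in `(F_2^m)^2` have at
most `r` elements, and let `F ⊆ (F_2^n)^2` be a union of pairwise disjoint sets `G s` each of which is
determined by `T` polynomials of degree at most two (which may depend on `s`). Then every corner-free
`A ⊆ (F_2^n)^2` satisfies `|A ∩ F| ≤ (r / 4^m) |F|`.
(2) For every `δ > 0` there is `n₀` such that for all `n ≥ n₀`, all `T ≤ √n / 20`, all such `F`,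
however small `|F|` is, and all corner-free `A` we have `|A ∩ F| ≤ δ |F|`.
(3) The number `√n / 20` cannot be replaced by `n`: some corner-free set with `2^n` elements is
determined by `n` polynomials of degree at most two. -/
theorem result :
    (∀ (m n T r : ℕ), (m + 6 * T + 1) * (8 * T + 1) ≤ n →
      (∀ B : Finset ((Fin m → ZMod 2) × (Fin m → ZMod 2)), CornerFree B → B.card ≤ r) →
      ∀ (N : ℕ) (G : Fin N → Finset ((Fin n → ZMod 2) × (Fin n → ZMod 2))),
        (∀ s, Determined T (G s)) → (∀ s t, s ≠ t → Disjoint (G s) (G t)) →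
        ∀ A : Finset ((Fin n → ZMod 2) × (Fin n → ZMod 2)), CornerFree A →
          ((A ∩ univ.biUnion G).card : ℝ) ≤ r / (4 : ℝ) ^ m * (univ.biUnion G).card) ∧
    (∀ δ : ℝ, 0 < δ → ∃ n₀ : ℕ, ∀ n T : ℕ, n₀ ≤ n → (T : ℝ) ≤ √n / 20 →
      ∀ (N : ℕ) (G : Fin N → Finset ((Fin n → ZMod 2) × (Fin n → ZMod 2))),
        (∀ s, Determined T (G s)) → (∀ s t, s ≠ t → Disjoint (G s) (G t)) →
        ∀ A : Finset ((Fin n → ZMod 2) × (Fin n → ZMod 2)), CornerFree A →
          ((A ∩ univ.biUnion G).card : ℝ) ≤ δ * (univ.biUnion G).card) ∧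
    (∀ n : ℕ, ∃ F : Finset ((Fin n → ZMod 2) × (Fin n → ZMod 2)), F.card = 2 ^ n ∧
      CornerFree F ∧ Determined n F) := by
  classical
  have hquad : ∀ {n : ℕ} {f : (Fin n → ZMod 2) × (Fin n → ZMod 2) → ZMod 2}, DegTwo f →
      Pool.Agent.N389.QF.Quad (p := 2) f := by
    rintro n f ⟨c, a, b, hf⟩
    refine Pool.Agent.N389.QF.quad_of_poly
      ((LinearEquiv.sumArrowLequivProdArrow (Fin n) (Fin n) (ZMod 2) (ZMod 2)).symm : _ →ₗ[ZMod 2] _)
      c a b f fun q => ?_
    rw [hf q]
    rfl
  have hunion : ∀ {n N : ℕ} (G : Fin N → Finset ((Fin n → ZMod 2) × (Fin n → ZMod 2))) (η : ℝ)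
      (A : Finset ((Fin n → ZMod 2) × (Fin n → ZMod 2))),
      (∀ s t, s ≠ t → Disjoint (G s) (G t)) →
      (∀ s, ((A ∩ G s).card : ℝ) ≤ η * (G s).card) →
      ((A ∩ univ.biUnion G).card : ℝ) ≤ η * (univ.biUnion G).card := by
    intro n N G η A hG h
    rw [card_biUnion fun s _ t _ hst => hG s t hst]
    have h1 : (A ∩ univ.biUnion G).card ≤ ∑ s, (A ∩ G s).card := by
      refine (card_le_card ?_).trans card_biUnion_le
      intro q hq
      obtain ⟨h2, h3⟩ := mem_inter.1 hq
      obtain ⟨s, hs, h4⟩ := mem_biUnion.1 h3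
      exact mem_biUnion.2 ⟨s, hs, mem_inter.2 ⟨h2, h4⟩⟩
    have h2 : ((A ∩ univ.biUnion G).card : ℝ) ≤ ∑ s, ((A ∩ G s).card : ℝ) := by exact_mod_cast h1
    push_cast
    rw [mul_sum]
    exact h2.trans (sum_le_sum fun s _ => h s)
  refine ⟨?_, ?_, ?_⟩
  · intro m n T r hn hr N G hG hdis A hA
    refine hunion G _ A hdis fun s => ?_
    obtain ⟨f, hf, hF⟩ := hG s
    have h1 := Pool.Agent.N389.QF.corner_quad f (fun i => hquad (hf i)) hn (G s) A hF r hA hr
    have h2 : ((4 : ℝ) ^ m) * ((A ∩ G s).card : ℝ) ≤ r * (G s).card := by exact_mod_cast h1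
    rw [div_mul_eq_mul_div, le_div_iff₀ (by positivity)]
    linarith
  · intro δ hδ
    obtain ⟨n₀, H⟩ := Pool.Agent.N389.QF.corner_quad_c δ hδ
    refine ⟨n₀, fun n T hn hT N G hG hdis A hA => ?_⟩
    have hT2 : 400 * T ^ 2 ≤ n := by
      have h1 : 20 * (T : ℝ) ≤ √n := by linarith
      have h2 : (20 * (T : ℝ)) ^ 2 ≤ √n ^ 2 := pow_le_pow_left₀ (by positivity) h1 2
      rw [Real.sq_sqrt (Nat.cast_nonneg _)] at h2
      have h3 : ((400 * T ^ 2 : ℕ) : ℝ) ≤ n := by
        push_cast
        linarith [h2, (by ring : (20 * (T : ℝ)) ^ 2 = 400 * (T : ℝ) ^ 2)]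
      exact_mod_cast h3
    refine hunion G _ A hdis fun s => ?_
    obtain ⟨f, hf, hF⟩ := hG s
    exact H n T hn hT2 f (fun i => hquad (hf i)) (G s) A hF hA
  · intro n
    refine ⟨univ.image fun x : Fin n → ZMod 2 => (x, x), ?_, ?_, ?_⟩
    · rw [card_image_of_injective _ fun x y h => congrArg Prod.fst h, card_univ, Fintype.card_fun,
        ZMod.card, Fintype.card_fin]
    · intro x y z h1 h2 _
      obtain ⟨u, -, hu⟩ := mem_image.1 h1
      obtain ⟨v, -, hv⟩ := mem_image.1 h2
      have e1 : x = y := (congrArg Prod.fst hu).symm.trans (congrArg Prod.snd hu)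
      have e2 : x = y + z := (congrArg Prod.fst hv).symm.trans (congrArg Prod.snd hv)
      rw [e1] at e2
      exact (left_eq_add.1 e2)
    · refine ⟨fun i q => q.1 i + q.2 i, fun i => ?_, fun q q' h => ?_⟩
      · refine ⟨0, Sum.elim (Pi.single i 1) (Pi.single i 1), 0, fun q => ?_⟩
        rw [Fintype.sum_sum_type]
        simp [Pi.single_apply]
      · have key : ∀ q : (Fin n → ZMod 2) × (Fin n → ZMod 2),
            q ∈ univ.image (fun x : Fin n → ZMod 2 => (x, x)) ↔ ∀ i, q.1 i + q.2 i = 0 := by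
          intro q
          constructor
          · intro hq i
            obtain ⟨x, -, rfl⟩ := mem_image.1 hq
            exact CharTwo.add_self_eq_zero _
          · intro hq
            refine mem_image.2 ⟨q.1, mem_univ _, ?_⟩
            refine Prod.ext rfl ?_
            funext i
            exact CharTwo.add_eq_zero.1 (hq i)
        rw [key, key]
        refine forall_congr' fun i => ?_
        have h' : q.1 i + q.2 i = q'.1 i + q'.2 i := h i
        rw [h']

end Pool.Agent.Results.MP_db4732_co.QuadraticFactors
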