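import Pool.Agent.N389.RB.Corner

set_option autoImplicit false

/-!
# Corner-free sets inside sets of small average sensitivity

Corner-free sets have small relative density inside *every* set `F ⊆ (F_2^n)^2`, however sparse, such
that on average only a small multiple of `n` of the changes of one coordinate pair `(x i, y i)` of a
point of `F` leave `F`; for instance if the indicator function of `F` is a sum of functions of at
most `c n` coordinate pairs.
-/

namespace Pool.Agent.Results.MP_db4732_co.SmallBoundary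

open Finset Function

/-- `A ⊆ (F_2^n)^2` contains no nontrivial corner `(x, y), (x, y + z), (x + z, y)`, `z ≠ 0`. -/
def CornerFree {n : ℕ} (A : Finset ((Fin n → ZMod 2) × (Fin n → ZMod 2))) : Prop :=
  ∀ x y z : Fin n → ZMod 2, (x, y) ∈ A → (x, y + z) ∈ A → (x + z, y) ∈ A → z = 0

/-- The size of the boundary of `F`: the number of the triples of a point `(x, y)` of `F`, a
coordinate `i` and a pair `(s, t)` in `F_2 × F_2` such that the point which arises from `(x, y)` if
`x i` and `y i` are replaced by `s` and `t` is not in `F`. -/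
def boundary {n : ℕ} (F : Finset ((Fin n → ZMod 2) × (Fin n → ZMod 2))) : ℕ :=
  ((F ×ˢ ((univ : Finset (Fin n)) ×ˢ (univ : Finset (ZMod 2 × ZMod 2)))).filter
    fun q => (update q.1.1 q.2.1 q.2.2.1, update q.1.2 q.2.1 q.2.2.2) ∉ F).card

/-- The indicator function of `F` is a sum of real functions each of which depends on the pairs
`(x i, y i)` for at most `D` coordinates `i` only. -/
def DegreeLe (D : ℕ) {n : ℕ} (F : Finset ((Fin n → ZMod 2) × (Fin n → ZMod 2))) : Prop :=
  ∃ (I : ℕ) (g : Fin I → ((Fin n → ZMod 2) × (Fin n → ZMod 2)) → ℝ) (T : Fin I → Finset (Fin n)),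
    (∀ t, (T t).card ≤ D ∧ ∀ a b : (Fin n → ZMod 2) × (Fin n → ZMod 2),
      (∀ i ∈ T t, a.1 i = b.1 i ∧ a.2 i = b.2 i) → g t a = g t b) ∧
    ∀ a, ∑ t, g t a = if a ∈ F then 1 else 0

/-- **Theorem.**
(1) Let `1 ≤ m ≤ n`, let `r` be such that corner-free sets in `(F_2^m)^2` have at most `r` elements,
and let the boundary of `F ⊆ (F_2^n)^2` be at most `4 ε ⌊n / m⌋ |F|`. Then every corner-free
`A ⊆ (F_2^n)^2` satisfies `|A ∩ F| ≤ (r / 4^m + ε) |F|`.
(2) For every `δ > 0` there are `c > 0` and `N₀` such that for all `n ≥ N₀`, all `F ⊆ (F_2^n)^2` with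
boundary at most `c n |F|`, however small `|F|` is, and all corner-free `A` we have
`|A ∩ F| ≤ δ |F|`.
(3) If the indicator function of `F` is a sum of real functions of at most `D` coordinate pairs, then
the boundary of `F` is at most `4 D |F|`; so (2) applies to `F` if `4 D ≤ c n`.
(4) The range in (2) is sharp up to `c`: for all `n` some corner-free set `F` with `2^n` elements has
boundary `2 n |F|`. -/
theorem result :
    (∀ (m n r : ℕ) (ε : ℝ), 1 ≤ m → m ≤ n →
      (∀ B : Finset ((Fin m → ZMod 2) × (Fin m → ZMod 2)), CornerFree B → B.card ≤ r) →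
      ∀ F A : Finset ((Fin n → ZMod 2) × (Fin n → ZMod 2)),
        (boundary F : ℝ) ≤ ε * (4 * (n / m : ℕ)) * F.card → CornerFree A →
          ((A ∩ F).card : ℝ) ≤ (r / (4 : ℝ) ^ m + ε) * F.card) ∧
    (∀ δ : ℝ, 0 < δ → ∃ c : ℝ, 0 < c ∧ ∃ N₀ : ℕ, ∀ n : ℕ, N₀ ≤ n →
      ∀ F A : Finset ((Fin n → ZMod 2) × (Fin n → ZMod 2)),
        (boundary F : ℝ) ≤ c * n * F.card → CornerFree A →
          ((A ∩ F).card : ℝ) ≤ δ * F.card) ∧
    (∀ (n D : ℕ) (F : Finset ((Fin n → ZMod 2) × (Fin n → ZMod 2))), DegreeLe D F →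
      boundary F ≤ 4 * D * F.card) ∧
    (∀ n : ℕ, ∃ F : Finset ((Fin n → ZMod 2) × (Fin n → ZMod 2)), F.card = 2 ^ n ∧
      CornerFree F ∧ boundary F = 2 * n * F.card) := by
  refine ⟨?_, ?_, ?_, ?_⟩
  · intro m n r ε hm hmn hr F A hF hA
    exact Pool.Agent.N389.RB.corner_rel hm ((Nat.one_le_div_iff (by omega)).2 hmn) r hr F A ε hF hA
  · intro δ hδ
    exact Pool.Agent.N389.RB.corner_c δ hδ
  · rintro n D F ⟨I, g, T, hg, hF⟩
    exact Pool.Agent.N389.RB.corner_deg F D I g T hg hF
  · intro n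
    exact Pool.Agent.N389.RB.corner_graph n

end Pool.Agent.Results.MP_db4732_co.SmallBoundary
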